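import Pool.Agent.H92EQ.Thm

/-!
# Motivic hard Lefschetz: cancellation, descent and rigidity of Chow-Kunneth decompositions

`𝒱` is a class of smooth projective geometrically irreducible varieties over the field `k` closed
under products (for example all of them), `C` the Chow groups with rational coefficients (in the
form of their formal properties, `IsChowProj`) and `H` a Weil cohomology theory (`IsWeilProj`).

Call `(X, D)` a Lefschetz variety if `X` has a Chow-Kunneth decomposition, not necessarily
self-dual, satisfying motivic hard Lefschetz for the divisor class `D` (`HasLefschetz`): the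
intersection with `D` maps `h^n` to `h^(n+2)(1)`, and `D^(d-n) : h^n(X) → h^(2d-n)(X)(d-n)` is an
isomorphism of Chow motives for `n ≤ d = dim X`. Nothing is assumed about finite dimensionality or
nilpotence.

1. Descent. Let `g : Y → X` be a morphism of relative dimension `n` and `η ∈ CH^1(Y)` with
   `η^(n+1) = 0` and `g_* η^n = N [X]`, `N ≠ 0`. If `(Y, g^* D + η)` is a Lefschetz variety, then `X`
   has a **self-dual** Chow-Kunneth decomposition satisfying motivic hard Lefschetz for `D`. For
   example `Y` can be any variety with a generically finite morphism `(g, h)` onto `X × Z`, with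
   `η = h^* E` and `E` a divisor class on `Z` with `E^(dim Z) ≠ 0`.
2. Products and cancellation. `(X × Z, D ⊞ E)` is a Lefschetz variety if and only if `(X, D)` and
   `(Z, E)` are, and then the decompositions can be chosen self-dual.
3. The linear equation `(λ × 1 - 1 × λ)² z = Δ_* λ` (`DivisorEquation`) for `λ = g^* D + η` on a variety
   `Y` of arbitrary dimension over `X`, and hard Lefschetz for `D` in the cohomology of `X`, imply
   that `X` has a self-dual decomposition satisfying motivic hard Lefschetz for `D`. Here
   `η^(m+1) = 0` and `g_* (A η^m) = N [X]` with `N ≠ 0` for some cycle `A` on `Y`; for example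
   `η = 0`, `m = 0`, `g` any surjective morphism. No polarization of `Y` is involved.
4. Independence of the cohomology theory: a Chow-Kunneth decomposition for `H` with motivic hard
   Lefschetz for a correspondence `L` of degree one is one for every Weil cohomology theory `H'`
   for which `L` satisfies hard Lefschetz.
5. Rigidity: two Chow-Kunneth decompositions `π`, `π'` with motivic hard Lefschetz for the same `L`
   are conjugate by `u = ∑ π' n ∘ π n`, whose inverse is `∑ π n ∘ π' n`. It commutes with `L`, acts as
   the identity on cohomology, only raises the weights, and is the identity on the graded pieces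
   (`Rigid`); in particular the direct factors `⊕_(n ≥ a) h^n(X)` of `h(X)` do not depend on the choice.
   If both decompositions are self-dual then `u` is an isometry: its transpose is its inverse. If
   homologically trivial correspondences strictly lower the weights, as predicted by the conjectures
   of Murre, then `π = π'`.
6. Nilpotence: if `(X, D)` is a Lefschetz variety and `y ∈ CH^(d-1)(X × X)` satisfies
   `(D × 1 - 1 × D)² y = 0`, then the correspondence `z = (D × 1 - 1 × D) y` is homologically trivial and
   nilpotent, `z^(2d+1) = 0`.

For the proof of 1, by the starting files a Chow-Kunneth decomposition with motivic hard Lefschetz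
for `λ` exists only if `Δ_* (λ^M)` is a multiple of `λ^M × λ^M` for all `M`; with `λ = g^* D + η` and
`M = c + n` one has `λ^M = (g^* D)^c B` and `g_* B` is a non-zero number, so applying `(g × g)_*` shows
that `Δ_* (D^c)` is a multiple of `D^c × D^c`. For 5 and 6, elements of the ring of correspondences
which commute with `L` and are commutators with `L` only have components of positive weight, by the
theory of `sl(2)`-triples.
-/

open CategoryTheory AlgebraicGeometry

set_option autoImplicit false

universe u v w w'

namespace Pool.Agent.Results.MP_8a7054_ag.CancellationAndRigidity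

open Pool.Agent.H914 Pool.Agent.W492.BB Pool.Agent.TH133 Pool.Agent.Y107 Pool.Agent.H92EQ

/-- Descent, cancellation, independence of the cohomology, rigidity and nilpotence for
Chow-Kunneth decompositions with motivic hard Lefschetz. -/
theorem result {k : Type u} [Field k] {𝒱 : VarClass k} (C : TheoryData.{u, v, 0} 𝒱 ℚ)
    [IsChowProj C] {K : Type w} [Field K] (H : WeilTheoryData.{u, v, w} C K) [IsWeilProj H] :
    (∀ (X Y : 𝒱.Obj) (g : Y ⟶ X) (D : C.A X) (η : C.A Y) (n : ℕ), Y.dim = X.dim + n →
      C.Deg 1 D → RelPower C g 1 η n → HasLefschetz H (pullAdd C g D η) →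
      HasSelfDualLefschetz H D) ∧
    (∀ (X Z : 𝒱.Obj) (D : C.A X) (E : C.A Z), C.Deg 1 D → C.Deg 1 E →
      (HasLefschetz H (boxPlus C D E) ↔ HasSelfDualLefschetz H D ∧ HasSelfDualLefschetz H E)) ∧
    (∀ (X Y : 𝒱.Obj) (g : Y ⟶ X) (D : C.A X) (A η : C.A Y) (m : ℕ), C.Deg 1 D →
      HardLefschetzCor H X (C.mulCorr D) → RelPower C g A η m →
      DivisorEquation C (pullAdd C g D η) → HasSelfDualLefschetz H D) ∧
    (∀ (K' : Type w') [Field K'] (H' : WeilTheoryData.{u, v, w'} C K') [IsWeilProj H']
      (X : 𝒱.Obj) (L : C.A (X.prod X)) (π : ℕ → C.A (X.prod X)), C.Deg ((X.dim : ℤ) + 1) L →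
      LefschetzCK H L π → HardLefschetzCor H' X L → LefschetzCK H' L π) ∧
    (∀ (X : 𝒱.Obj) (L : C.A (X.prod X)) (π π' : ℕ → C.A (X.prod X)),
      C.Deg ((X.dim : ℤ) + 1) L → LefschetzCK H L π → LefschetzCK H L π' → Rigidity H L π π') ∧
    (∀ (X : 𝒱.Obj) (D : C.A X) (y : C.A (X.prod X)), C.Deg 1 D → HasLefschetz H D →
      C.Deg ((X.dim : ℤ) - 1) y → boxDiff C D ^ 2 * y = 0 →
      H.cl (boxDiff C D * y) = 0 ∧ corPow C (boxDiff C D * y) (2 * X.dim + 1) = 0) :=
  ⟨fun _ _ g _ _ _ hdim hD hr h => descent' g hdim hD hr h,
    fun _ _ _ _ hD hE => prod_iff' hD hE,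
    fun _ _ g _ _ _ _ hD hHL hr h => uncentred g hD hHL hr h,
    fun _ _ H' _ X L π hL h hHL => ⟨isCK_other (C := C) (H := H) (H' := H') (X := X)
      (L := L) (P := π) hL h.ck h.lefschetz hHL, h.lefschetz⟩,
    fun _ _ _ _ hL h h' => rigidity hL h h',
    fun _ _ _ hD h hy h0 => nilpotence hD h hy h0⟩

end Pool.Agent.Results.MP_8a7054_ag.CancellationAndRigidity
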