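import Pool.Agent.Helper45M.SK.Desc2

/-!
# Self-dual Chow-Kunneth decompositions from the cohomology below the middle degree

`𝒱` is a class of smooth projective geometrically irreducible varieties over the field `k` closed
under products (for example all of them), `C` the Chow groups with rational coefficients (in the
form of their formal properties, `IsChowProj`) and `H` a Weil cohomology theory (`IsWeilProj`).

Let `X` be a variety of dimension `d`. Then `X` has a self-dual Chow-Kunneth decomposition if its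
cohomology below the middle degree is a direct factor of the cohomology of a piece of the motive of
another variety `Y`, of any dimension, whose endomorphisms are under control. No hypothesis is made
on the middle cohomology `H^d(X)`, on the Chow motive of `X`, nor on the rest of the motive of `Y`.

1. Let `a : h(X) → h(Y)(e)` and `b : h(Y)(e) → h(X)` be correspondences such that `b ∘ a` acts as the
   identity on `H^n(X)` for `n < d`. Suppose that the Kunneth projectors of `Y` of the degrees
   `n + 2 e`, `n < d`, lift to mutually orthogonal idempotents `p_n`, and that the homologically trivial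
   endomorphisms of the motive `(Y, p)`, `p = ∑ p_n`, are nilpotent. Then `X` has a self-dual
   Chow-Kunneth decomposition.
2. In particular, this is so if there is a dominant morphism `f : Y → X`, more precisely if
   `f_* y = [X]` for some `y ∈ CH^(dim Y - dim X)(Y)`; here only `h^n(Y)`, `n < dim X`, matter.
3. Hyperplane sections: let `i : Y → X` with `dim Y = d - 1` and `D = i_* [Y]` (for example `Y` is a
   smooth ample divisor of `X`), and suppose that the Lefschetz operator `x ↦ D x` has an algebraic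
   inverse `Λ ∈ CH^(d-1)(X × X)` on `H^n(X)`, `n < d` (this follows from the standard conjecture of
   Lefschetz type `B(X)`). If `Y` has a Chow-Kunneth decomposition and its homologically trivial
   correspondences of degree zero are nilpotent (for example, `Y` has a finite-dimensional motive), then
   `X` has a self-dual Chow-Kunneth decomposition.

For surfaces `X` and curves `Y` the third part is a theorem of Murre.

Proof. Let `p' = ∑ (n + 1) p_n` and `S = b p' p a ∈ CH^d(X × X)`. Then `S` acts as `n + 1` on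
`H^n(X)`, `n < d`, and as zero on `H^n(X)`, `n ≥ d`. We have `F(S) S = b p' F(y) p a` for
`y = p a b p' ∈ End(Y, p)` and all polynomials `F`, so the nilpotency for `(Y, p)` shows that `S`
satisfies a polynomial equation, and its spectral idempotents `g_n` lift the Kunneth projectors of `X`
for `n < d`. Moreover `g ∘ g^t`, `g = ∑ g_n`, is nilpotent, since it is homologically trivial and factors
through `(Y, p)`. Now use the criterion for self-dual decompositions
(`Pool.Agent.Helper45M.SK.exists_selfDual_of_half`).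
-/

set_option autoImplicit false

open CategoryTheory AlgebraicGeometry

universe u v w

namespace Pool.Agent.Results.MP_8a7054_ag.LowerHalfDescent

open Pool.Agent.H914 Pool.Agent.H914.VarClass Pool.Agent.H914.VarClass.Obj Pool.Agent.W492.BB
  Pool.Agent.TH133 Pool.Agent.Y107 Pool.Agent.W550.Corr Pool.Agent.Helper45M.SK

section defs

variable {k : Type u} [Field k] {𝒱 : VarClass k} {C : TheoryData.{u, v, 0} 𝒱 ℚ}
  {K : Type w} [Field K] (H : WeilTheoryData.{u, v, w} C K) {X Y : 𝒱.Obj}

/-- `X` has a self-dual Chow-Kunneth decomposition. -/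
def HasSelfDualCK (X : 𝒱.Obj) : Prop := ∃ π : ℕ → C.A (X.prod X), IsCK H X π ∧ IsSelfDual C π

/-- The correspondences `a ∈ CH^(dim X + e)(X × Y)` and `b ∈ CH^(dim Y - e)(Y × X)`, that is,
`a : h(X) → h(Y)(e)` and `b : h(Y)(e) → h(X)`, are such that `b ∘ a` acts as the identity
on `H^n(X)` for `n < dim X`. -/
structure IsSplitBelow (e : ℤ) (a : C.A (X.prod Y)) (b : C.A (Y.prod X)) : Prop where
  deg_a : C.Deg ((X.dim : ℤ) + e) a
  deg_b : C.Deg ((Y.dim : ℤ) - e) b
  act : ∀ n < X.dim, ∀ x : H.A X, H.Deg n x → H.act (H.cl b) (H.act (H.cl a) x) = x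

/-- The correspondence `Λ ∈ CH^(dim X - 1)(X × X)` inverts the operator `x ↦ D x` on `H^n(X)`,
`n < dim X`. -/
def InvertsBelow (D : C.A X) (Λ : C.A (X.prod X)) : Prop :=
  C.Deg ((X.dim : ℤ) - 1) Λ ∧
    ∀ n < X.dim, ∀ x : H.A X, H.Deg n x → H.act (H.cl Λ) (H.cl D * x) = x

/-- The homologically trivial self-correspondences of degree zero of `Y` are nilpotent. -/
def NilpotentHomTrivial (Y : 𝒱.Obj) : Prop :=
  ∀ z : C.A (Y.prod Y), C.Deg Y.dim z → H.cl z = 0 → IsNilpotentCor C z

end defs

section proof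

variable {k : Type u} [Field k] {𝒱 : VarClass k} {C : TheoryData.{u, v, 0} 𝒱 ℚ}
    [hC : IsChowProj C] {X Y : 𝒱.Obj}

include hC

lemma cograph_mul_graph (f : Y ⟶ X) (y : C.A Y) :
    C.comp (C.cograph f) (C.comp (C.mulCorr y) (C.graph f)) = C.mulCorr (C.push f y) := by
  have e1 : Obj.lift f (𝟙 Y) ≫ prodMap (𝟙 X) f = f ≫ Obj.lift (𝟙 X) (𝟙 X) := by
    apply prod_ext <;> simp
  have e2 : C.comp (C.cograph f) (C.mulCorr y) = C.push (Obj.lift f (𝟙 Y)) y := by
    rw [comp_mulCorr, TheoryData.cograph, ← C.proj_left, ← C.pull_comp, lift_snd, C.pull_id,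
      mul_one]
  rw [← comp_assoc, e2, comp_eq_extR, extR_graph, ← C.push_comp, e1, C.push_comp]
  rfl

lemma mulCorr_mem {e : ℤ} {y : C.A Y} (hy : y ∈ C.gr Y e) :
    C.mulCorr y ∈ C.gr (Y.prod Y) ((Y.dim : ℤ) + e) := by
  have h := C.push_mem (Obj.lift (𝟙 Y) (𝟙 Y)) hy
  have e1 : e + 1 * (((Y.prod Y).dim : ℤ) - (Y.dim : ℤ)) = Y.dim + e := by
    rw [dim_prod]; push_cast; ring
  rwa [e1] at h

variable {K : Type w} [Field K] {H : WeilTheoryData.{u, v, w} C K} [hH : IsWeilProj H]

include hH

omit hC in
lemma actH_mulCorr (D : C.A X) (x : H.A X) : H.act (H.cl (C.mulCorr D)) x = H.cl D * x := by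
  have : H.cl (C.mulCorr D) = H.mulCorr (H.cl D) := by
    rw [TheoryData.mulCorr, TheoryData.mulCorr, H.cl_push]
  rw [this, H.act_mulCorr]

lemma hasGoodPart_of_CK (r : ℕ) {p : ℕ → C.A (Y.prod Y)} (hp : IsCK H Y p)
    (hnil : NilpotentHomTrivial H Y) : HasGoodPart H Y r 0 := by
  refine ⟨p, ⟨fun n _ => hp.deg n, fun n _ => hp.idem n, fun m _ n _ => hp.orth m n,
    fun n _ a ha => hp.act_self n a ?_, fun n _ m a hm ha => hp.act_ne n m a ?_ ha⟩, ?_⟩
  · have ha' : a ∈ H.gr Y (n + 2 * 0) := ha
    rw [mul_zero, add_zero] at ha'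
    exact ha'
  · rwa [mul_zero, add_zero] at hm
  · intro z hz h0
    have hP : psum r p ∈ C.gr (Y.prod Y) Y.dim := Submodule.sum_mem _ fun n _ => hp.deg n
    apply hnil
    · exact comp_mem0 C (comp_mem0 C hP hz) hP
    · rw [cl_comp, cl_comp, h0]
      have e1 : H.comp (H.cl (psum r p)) (0 : H.A (Y.prod Y)) = 0 := comp_zero _ _
      rw [e1]
      exact zero_comp _ _

end proof

/-- Self-dual Chow-Kunneth decompositions from direct factors below the middle degree, along dominant
morphisms, and from hyperplane sections. -/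
theorem result {k : Type u} [Field k] {𝒱 : VarClass k} (C : TheoryData.{u, v, 0} 𝒱 ℚ)
    [IsChowProj C] {K : Type w} [Field K] (H : WeilTheoryData.{u, v, w} C K) [IsWeilProj H]
    (X Y : 𝒱.Obj) :
    (∀ e : ℤ, HasGoodPart H Y X.dim e →
      ∀ (a : C.A (X.prod Y)) (b : C.A (Y.prod X)), IsSplitBelow H e a b → HasSelfDualCK H X) ∧
    (HasGoodPart H Y X.dim 0 →
      ∀ (f : Y ⟶ X) (y : C.A Y), C.Deg ((Y.dim : ℤ) - X.dim) y → C.push f y = 1 →
        HasSelfDualCK H X) ∧
    (HasGoodPart H Y X.dim 0 → Y.dim + 1 = X.dim →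
      ∀ (i : Y ⟶ X) (Λ : C.A (X.prod X)), InvertsBelow H (C.push i 1) Λ → HasSelfDualCK H X) ∧
    ((∃ p : ℕ → C.A (Y.prod Y), IsCK H Y p) → NilpotentHomTrivial H Y →
      ∀ r : ℕ, HasGoodPart H Y r 0) := by
  have main : ∀ e : ℤ, HasGoodPart H Y X.dim e →
      ∀ (a : C.A (X.prod Y)) (b : C.A (Y.prod X)), IsSplitBelow H e a b → HasSelfDualCK H X := by
    rintro e ⟨p, h1, h2⟩ a b ⟨ha, hb, hab⟩
    exact exists_selfDual_of_partial e ha hb hab h1 h2
  refine ⟨main, ?_, ?_, ?_⟩
  · intro hp f y hy hfy
    refine main 0 hp (C.cograph f) (C.comp (C.mulCorr y) (C.graph f)) ⟨?_, ?_, ?_⟩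
    · rw [add_zero]
      exact cograph_mem f
    · have h1 := mulCorr_mem (C := C) hy
      have h2 : C.graph f ∈ C.gr (Y.prod X) ((Y.dim : ℤ) + (X.dim - Y.dim)) := by
        rw [add_sub_cancel]
        exact graph_mem' f
      have h3 := comp_mem C h1 h2
      rw [show (Y.dim : ℤ) + ((Y.dim : ℤ) - X.dim + (X.dim - Y.dim)) = Y.dim - 0 by ring] at h3
      exact h3
    · intro n _ x _
      rw [← actH_comp, cograph_mul_graph, hfy]
      exact actH_dg H x
  · rintro hp hd i Λ ⟨hΛ, hinv⟩
    refine main 0 hp (C.cograph i) (C.comp (C.graph i) Λ) ⟨?_, ?_, ?_⟩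
    · rw [add_zero]
      exact cograph_mem i
    · have h2 : C.graph i ∈ C.gr (Y.prod X) ((Y.dim : ℤ) + (X.dim - Y.dim)) := by
        rw [add_sub_cancel]
        exact graph_mem' i
      have h3 := comp_mem C h2 (e' := -1) (Δ := Λ) (by rw [← sub_eq_add_neg]; exact hΛ)
      rw [show (Y.dim : ℤ) + ((X.dim : ℤ) - Y.dim + -1) = Y.dim - 0 by omega] at h3
      exact h3
    · intro n hn x hx
      rw [← actH_comp, ← comp_assoc, cograph_graph, actH_comp, actH_mulCorr]
      exact hinv n hn x hx
  · rintro ⟨p, hp⟩ hnil r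
    exact hasGoodPart_of_CK r hp hnil

end Pool.Agent.Results.MP_8a7054_ag.LowerHalfDescent
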