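import Pool.Agent.H92SD.Class

/-!
# Self-dual Chow-Kunneth decompositions of sections of products

`𝒱` is a class of smooth projective geometrically irreducible varieties over the field `k` closed
under products (for example all of them), `C` the Chow groups with rational coefficients (in the
form of their formal properties, `IsChowProj`) and `H` a Weil cohomology theory (`IsWeilProj`).

A pair `(X, D)` of a variety and a divisor class is a Lefschetz pair (`LefschetzPair`) if `X` has a
self-dual Chow-Kunneth decomposition for which the intersection with `D` does not raise the weights
(its components `h^a(X) → h^b(X)(1)` are zero for `b > a + 2`, those with `b < a + 2` are arbitrary)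
and for which the components `h^(d-s)(X) → h^(d+s)(X)(s)` of the intersection with `D^s` are
isomorphisms (`s ≤ d = dim X`). Nothing is assumed about finite dimensionality or nilpotence, and
the intersection with `D` need not be homogeneous (on a surface with `q > 0` it is not in general).

1. Products of Lefschetz pairs are Lefschetz pairs.
2. If `(Y, D)` is a Lefschetz pair and `i : X → Y` is a morphism of codimension `c ≥ 0` for which
   `i_* [X]` is a non-zero multiple of `D^c` and `i^*` is surjective on the cohomology below the
   middle of `X` (`IsSection`), then `(X, i^* D)` is a Lefschetz pair. This applies to smooth complete intersections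
   of multiples of an ample `D`, and to covers branched along multiples of `D`.
3. Varieties whose cohomology below the middle is generated by algebraic classes and `H^1` are
   Lefschetz pairs (`SimpleBelow`: curves, surfaces, threefolds with algebraic `H^2`, ...), and so are
   varieties with a Chow-Kunneth decomposition satisfying motivic hard Lefschetz (`Homogeneous`,
   for example abelian varieties). Hence all pairs obtained from these by products, multiples and
   sections (`Generated`) are Lefschetz pairs, and in particular these varieties have self-dual
   Chow-Kunneth decompositions. For example this holds for smooth complete intersections of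
   multiples of `D_1 ⊞ ... ⊞ D_r`, the `D_i` ample, in products of curves, surfaces, threefolds with
   algebraic `H^2` and abelian varieties.
4. More generally, `X` has a self-dual Chow-Kunneth decomposition if there is a morphism `i : X → Y`
   such that `i^*` is surjective on cohomology below the middle of `X`, and `Y` has a self-dual
   Chow-Kunneth decomposition for which the intersection with `i_* [X]` does not raise the weights
   and has left invertible components `h^n(Y) → h^(n+2c)(Y)(c)` in the degrees `n < dim X`.
-/

open CategoryTheory AlgebraicGeometry

set_option autoImplicit false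

universe u v w

namespace Pool.Agent.Results.MP_8a7054_ag.SectionsAndProducts

open Pool.Agent.H914 Pool.Agent.W492.BB Pool.Agent.TH133 Pool.Agent.H92SD

/-- Lefschetz pairs are stable under products and sections; all pairs generated from pairs with
simple cohomology below the middle and homogeneous pairs are Lefschetz pairs; a self-dual
decomposition of a variety with a suitable morphism to `Y`. -/
theorem result {k : Type u} [Field k] {𝒱 : VarClass k} (C : TheoryData.{u, v, 0} 𝒱 ℚ)
    [IsChowProj C] {K : Type w} [Field K] (H : WeilTheoryData.{u, v, w} C K) [IsWeilProj H] :
    (∀ (X Z : 𝒱.Obj) (D : C.A X) (E : C.A Z), LefschetzPair H X D → LefschetzPair H Z E →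
      LefschetzPair H (X.prod Z) (boxSum C D E)) ∧
    (∀ (X Y : 𝒱.Obj) (i : X ⟶ Y) (c : ℕ) (D : C.A Y), LefschetzPair H Y D → IsSection H i c D →
      LefschetzPair H X (C.pull i D)) ∧
    (∀ (X : 𝒱.Obj) (D : C.A X), Generated H X D →
      LefschetzPair H X D ∧ ∃ π : ℕ → C.A (X.prod X), IsCK H X π ∧ IsSelfDual C π) ∧
    (∀ (X Y : 𝒱.Obj) (i : X ⟶ Y) (c : ℕ) (π : ℕ → C.A (Y.prod Y)), Y.dim = X.dim + c →
      IsCK H Y π → IsSelfDual C π → NotRaising C π c (C.mulCorr (C.push i 1)) →
      (∀ n < X.dim, LeftInvertible C π n (n + 2 * c) c (C.mulCorr (C.push i 1))) →
      OntoBelow H i →
      ∃ ρ : ℕ → C.A (X.prod X), IsCK H X ρ ∧ IsSelfDual C ρ) := by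
  refine ⟨fun X Z D E h h' => h.prod h', fun X Y i c D h hi => ?_,
    fun X D h => ⟨h.lefschetzPair, ?_⟩,
    fun X Y i c π hc hπ hs hwb hγ ho => exists_selfDual_of_morphism i c hc π hπ hs hwb hγ ho⟩
  · obtain ⟨m, hm, h1⟩ := hi.push_one
    exact h.sect i hi.dim hm h1 hi.onto
  · obtain ⟨_, π, hπ⟩ := h.lefschetzPair
    exact ⟨π, hπ.ck, hπ.selfDual⟩

end Pool.Agent.Results.MP_8a7054_ag.SectionsAndProducts
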