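import Pool.Agent.Helper45M.SK.Spec

/-!
# A criterion for self-dual Chow-Kunneth decompositions

`𝒱` is a class of smooth projective geometrically irreducible varieties over the field `k` closed
under products (for example all of them), `C` the Chow groups with rational coefficients (in the
form of their formal properties, `IsChowProj`) and `H` a Weil cohomology theory (`IsWeilProj`). For a
correspondence `T ∈ CH^d(X × X)`, `d = dim X`, let `T^t` be its transpose.

The following are equivalent.

1. `X` has a self-dual Chow-Kunneth decomposition.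
2. The Kunneth projectors of `X` in the degrees `< d` lift to mutually orthogonal idempotents
   `p_0, …, p_(d-1)` of `CH^d(X × X)` for which `p ∘ p^t` is nilpotent, `p = p_0 + ⋯ + p_(d-1)`.
3. `X` has a Chow-Kunneth decomposition (not necessarily self-dual) for which `p ∘ p^t` is
   nilpotent, `p = p_0 + ⋯ + p_(d-1)`.
4. There is `T ∈ CH^d(X × X)` with `T^t = -T`, which satisfies the equation
   `∏_{-d ≤ j ≤ d} (T - j) = 0` and acts on `H^n(X)` as multiplication by `n - d`.
5. There is `T ∈ CH^d(X × X)` which commutes with `T^t`, satisfies an equation `P(T) = 0` with a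
   polynomial `P ≠ 0`, and for which there are pairwise coprime polynomials `Q_0, …, Q_(2d)` with
   rational coefficients such that `Q_n(T)` acts as zero on `H^n(X)`.

In 2 nothing is assumed about the other homologically trivial correspondences, nor about the
degrees `≥ d`. The correspondence `p ∘ p^t` is homologically trivial, so it is nilpotent if `X` has a
finite-dimensional motive; and it is zero if the first half of Murre's conjecture (B) holds for `X × X`.
In 5 the correspondence `T` can be the graph of an endomorphism of `X`, for example the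
multiplication by `m > 1` on an abelian variety or, if `k` is finite, the Frobenius endomorphism `F`:
`F^t = q^d F^(-1)` commutes with `F`, and by the Weil conjectures its characteristic polynomials on
the cohomology groups have rational coefficients and are pairwise coprime. So `X` has a self-dual
Chow-Kunneth decomposition if its Frobenius satisfies some polynomial equation in `CH^d(X × X)`.

Proof of 2 → 1. Let `q = p^t`, `ν = p q p`, which is nilpotent. The form on the direct factor
`M = (X, p)` is `α = q p : M → M^∨`. With the solution `h(ν)` of `1 + 2 h + ν h² = 0` which is a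
polynomial in `ν`, the embedding `i = p + α h(ν)` of `M` is isotropic, and `1 + ν h(ν) = √(1 - ν)` is
invertible, so `M` has an isotropic complement in duality with `i`: there is `j` with `j i = p` and
`j j^t = 0`. Then the idempotents `i p_n j`, their transposes, and the remainder of
the diagonal form a self-dual decomposition.
-/

set_option autoImplicit false

open CategoryTheory AlgebraicGeometry

universe u v w

namespace Pool.Agent.Results.MP_8a7054_ag.SelfDualCriterion

open Pool.Agent.H914 Pool.Agent.W492.BB Pool.Agent.TH133 Pool.Agent.Y107 Pool.Agent.W550.Corr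
  Pool.Agent.Helper45M.SK Polynomial

/-- Five characterisations of the varieties with a self-dual Chow-Kunneth decomposition. -/
theorem result {k : Type u} [Field k] {𝒱 : VarClass k} (C : TheoryData.{u, v, 0} 𝒱 ℚ)
    [IsChowProj C] {K : Type w} [Field K] (H : WeilTheoryData.{u, v, w} C K) [IsWeilProj H]
    (X : 𝒱.Obj) :
    List.TFAE
      [∃ π, IsCK H X π ∧ IsSelfDual C π,
       ∃ p : ℕ → C.A (X.prod X), PartialCK H X X.dim 0 p ∧
        IsNilpotentCor C (C.comp (tp C (psum X.dim p)) (psum X.dim p)),
       ∃ p : ℕ → C.A (X.prod X), IsCK H X p ∧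
        IsNilpotentCor C (C.comp (tp C (psum X.dim p)) (psum X.dim p)),
       ∃ T : C.A (X.prod X), C.Deg X.dim T ∧ tp C T = -T ∧
        evalCor C (∏ j ∈ Finset.range (2 * X.dim + 1), (Polynomial.X -
          Polynomial.C ((j : ℚ) - X.dim))) T = 0 ∧
        ∀ (n : ℤ) (a : H.A X), H.Deg n a → H.act (H.cl T) a = ((n : K) - X.dim) • a,
       ∃ T : C.A (X.prod X), C.Deg X.dim T ∧ C.comp (tp C T) T = C.comp T (tp C T) ∧
        (∃ P : ℚ[X], P ≠ 0 ∧ evalCor C P T = 0) ∧
        ∃ Q : ℕ → ℚ[X],
          (∀ m ≤ 2 * X.dim, ∀ n ≤ 2 * X.dim, m ≠ n → IsCoprime (Q m) (Q n)) ∧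
          ∀ n ≤ 2 * X.dim, ∀ a : H.A X, H.Deg n a → H.act (H.cl (evalCor C (Q n) T)) a = 0] := by
  tfae_have 1 → 3 := by
    rintro ⟨π, h1, h2⟩
    refine ⟨π, h1, 1, ?_⟩
    let π₁ : ℕ → Cor C X := π
    have h1' : IsCK H X π₁ := h1
    have e1 : (∑ n ∈ Finset.range X.dim, π₁ n) *
        tpR C X (∑ n ∈ Finset.range X.dim, π₁ n) = 0 := by
      rw [map_sum, Finset.sum_mul]
      apply Finset.sum_eq_zero
      intro m hm
      rw [Finset.mul_sum]
      apply Finset.sum_eq_zero
      intro n hn
      rw [Finset.mem_range] at hm hn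
      have e2 : tpR C X (π₁ n) = π₁ (2 * X.dim - n) := h2 n (by omega)
      rw [e2, h1'.mul_eq, if_neg (by omega)]
    have e3 : (corPow C (C.comp (tp C (psum X.dim π)) (psum X.dim π)) 1 : C.A (X.prod X)) =
        ((∑ n ∈ Finset.range X.dim, π₁ n) *
          tpR C X (∑ n ∈ Finset.range X.dim, π₁ n) : Cor C X) := by
      have e4 := corPow_eq (C := C) (X := X) ((∑ n ∈ Finset.range X.dim, π₁ n) *
          tpR C X (∑ n ∈ Finset.range X.dim, π₁ n)) 1
      rw [pow_one] at e4
      exact e4
    rw [e3, e1]
    rfl
  tfae_have 3 → 2 := by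
    rintro ⟨p, h1, h2⟩
    refine ⟨p, ⟨fun n _ => h1.deg n, fun n _ => h1.idem n, fun m _ n _ => h1.orth m n,
      fun n _ a ha => h1.act_self n a ?_, fun n _ m a hm ha => h1.act_ne n m a ?_ ha⟩, h2⟩
    · have ha' : a ∈ H.gr X (n + 2 * 0) := ha
      rw [mul_zero, add_zero] at ha'
      exact ha'
    · rwa [mul_zero, add_zero] at hm
  tfae_have 2 → 1 := by
    rintro ⟨p, h1, h2⟩
    let p₁ : ℕ → Cor C X := p
    exact exists_selfDual_of_half ((half_iff (p := p₁)).1 h1)
      ((isNilpotentCor_iff ((∑ n ∈ Finset.range X.dim, p₁ n) *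
        tpR C X (∑ n ∈ Finset.range X.dim, p₁ n))).1 h2)
  tfae_have 1 → 4 := by
    rintro ⟨π, h1, h2⟩
    obtain ⟨T, hT, h3, h4, h5⟩ := exists_weight h1 h2
    refine ⟨T, hT, h3, ?_, h5⟩
    rw [evalCor_eq]
    apply h4
    intro n hn
    rw [Polynomial.eval_prod]
    apply Finset.prod_eq_zero (Finset.mem_range.2 (show n < 2 * X.dim + 1 by omega))
    simp
  tfae_have 4 → 5 := by
    rintro ⟨T, hT, h3, h4, h5⟩
    refine ⟨T, hT, ?_, ⟨_, ?_, h4⟩, fun n => Polynomial.X - Polynomial.C ((n : ℚ) - X.dim), ?_, ?_⟩
    · let T₁ : Cor C X := T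
      have h3' : tpR C X T₁ = -T₁ := h3
      change (T₁ * tpR C X T₁ : Cor C X) = tpR C X T₁ * T₁
      rw [h3', mul_neg, neg_mul]
    · exact Finset.prod_ne_zero_iff.2 fun n _ => Polynomial.X_sub_C_ne_zero _
    · intro m _ n _ hmn
      apply Polynomial.isCoprime_X_sub_C_of_isUnit_sub
      rw [isUnit_iff_ne_zero]
      intro h
      apply hmn
      have : (m : ℚ) = n := by linarith
      exact_mod_cast this
    · intro n _ a ha
      let T₁ : Cor C X := T
      have e := evalCor_eq (Polynomial.X - Polynomial.C ((n : ℚ) - X.dim)) T₁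
      change H.act (H.cl (evalCor C (Polynomial.X - Polynomial.C ((n : ℚ) - X.dim)) T)) a = 0
      rw [e]
      change actH C X H (Polynomial.aeval T₁ (Polynomial.X - Polynomial.C ((n : ℚ) - X.dim))) a = 0
      have h6 : actH C X H T₁ a = ((n : K) - X.dim) • a := by
        have := h5 n a ha
        rw [Int.cast_natCast] at this
        exact this
      have e5 : algebraMap ℚ (Cor C X) ((n : ℚ) - X.dim) = (n : Cor C X) - (X.dim : Cor C X) := by
        rw [map_sub, map_natCast, map_natCast]
      rw [map_sub, Polynomial.aeval_X, Polynomial.aeval_C, e5, map_sub, map_sub, map_natCast,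
        map_natCast, LinearMap.sub_apply, LinearMap.sub_apply,
        Module.End.natCast_apply, Module.End.natCast_apply, h6, sub_smul,
        Nat.cast_smul_eq_nsmul, Nat.cast_smul_eq_nsmul, sub_self]
  tfae_have 5 → 1 := by
    rintro ⟨T, hT, h3, ⟨P, hP, h4⟩, Q, h5, h6⟩
    let T₁ : Cor C X := T
    refine exists_selfDual_of_spectral (T := T₁) hT h3 P hP ?_ Q h5 fun n hn x hx => ?_
    · rw [← evalCor_eq]
      exact h4
    · have := h6 n hn x hx
      rw [evalCor_eq (T := T₁)] at this
      exact this
  tfae_finish

end Pool.Agent.Results.MP_8a7054_ag.SelfDualCriterion
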